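import Mathlib

set_option autoImplicit false

/-!
# The recursion `x (n + 3) = (α + x (n + 2)) / x n` in logarithmic coordinates
-/

namespace Pool.Agent.N358.Rat3

/-- One return to the region `y n ≤ M`, `y (n + 2) ≤ 0`, `y (n + 1)` very negative. -/
theorem step (M : ℝ) (hM : 0 ≤ M) (sp : ℝ → ℝ) (h1 : ∀ t, t ≤ sp t) (h2 : ∀ t, -M ≤ sp t)
    (h3 : ∀ t, 0 ≤ t → sp t ≤ t + M) (h4 : ∀ t, t ≤ 0 → sp t ≤ M) (y : ℕ → ℝ)
    (hy : ∀ n, y (n + 3) = sp (y (n + 2)) - y n) (n : ℕ) (β : ℝ) (hβ : 6 * M + 2 ≤ β)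
    (ha : y n ≤ M) (hb : y (n + 1) ≤ -β) (hc : y (n + 2) ≤ 0)
    (hs : y n + y (n + 1) + y (n + 2) ≤ -(2 * β + 6 * M + 2)) :
    ∃ m, y m ≤ M ∧ y (m + 1) ≤ -(β + 1) ∧ y (m + 2) ≤ 0 ∧
      y m + y (m + 1) + y (m + 2) ≤ -(2 * (β + 1) + 6 * M + 2) := by
  have e1 : y (n + 3) = sp (y (n + 2)) - y n := hy n
  have e2 : y (n + 4) = sp (y (n + 3)) - y (n + 1) := hy (n + 1)
  have e3 : y (n + 5) = sp (y (n + 4)) - y (n + 2) := hy (n + 2)
  have e4 : y (n + 6) = sp (y (n + 5)) - y (n + 3) := hy (n + 3)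
  have e5 : y (n + 7) = sp (y (n + 6)) - y (n + 4) := hy (n + 4)
  have e6 : y (n + 8) = sp (y (n + 7)) - y (n + 5) := hy (n + 5)
  have e7 : y (n + 9) = sp (y (n + 8)) - y (n + 6) := hy (n + 6)
  have e8 : y (n + 10) = sp (y (n + 9)) - y (n + 7) := hy (n + 7)
  have a1 := h2 (y (n + 2))
  have a2 := h4 _ hc
  have b1 := h1 (y (n + 3))
  have b2 := h2 (y (n + 3))
  have c1 := h1 (y (n + 4))
  have d1 := h1 (y (n + 5))
  have f1 := h1 (y (n + 6))
  have p2 : 0 ≤ y (n + 4) := by linarith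
  have c3 := h3 _ p2
  have p3 : 0 ≤ y (n + 5) := by linarith
  have d3 := h3 _ p3
  have p4 : 0 ≤ y (n + 6) := by linarith
  have f3 := h3 _ p4
  by_cases hcase : y (n + 7) ≤ M
  · have g : sp (y (n + 7)) ≤ 2 * M := by
      rcases le_total (y (n + 7)) 0 with h | h
      · have := h4 _ h
        linarith
      · have := h3 _ h
        linarith
    have q6 : y (n + 8) ≤ 0 := by linarith
    have k := h4 _ q6
    exact ⟨n + 7, hcase, by show y (n + 8) ≤ _; linarith, by show y (n + 9) ≤ _; linarith,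
      by show y (n + 7) + y (n + 8) + y (n + 9) ≤ _; linarith⟩
  · have hcase' : M < y (n + 7) := lt_of_not_ge hcase
    have g := h3 (y (n + 7)) (by linarith)
    have q6 : y (n + 8) ≤ 0 := by linarith
    have k := h4 _ q6
    have q7 : y (n + 9) ≤ 0 := by linarith
    have l := h4 _ q7
    exact ⟨n + 8, by linarith, by show y (n + 9) ≤ _; linarith, by show y (n + 10) ≤ _; linarith,
      by show y (n + 8) + y (n + 9) + y (n + 10) ≤ _; linarith⟩

/-- The returns have arbitrarily negative middle coordinate. -/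
theorem returns (M : ℝ) (hM : 0 ≤ M) (sp : ℝ → ℝ) (h1 : ∀ t, t ≤ sp t) (h2 : ∀ t, -M ≤ sp t)
    (h3 : ∀ t, 0 ≤ t → sp t ≤ t + M) (h4 : ∀ t, t ≤ 0 → sp t ≤ M) (y : ℕ → ℝ)
    (hy : ∀ n, y (n + 3) = sp (y (n + 2)) - y n)
    (h0 : y 0 ≤ -(6 * M + 2)) (h0' : y 1 ≤ -(6 * M + 2)) (h0'' : y 2 ≤ -(6 * M + 2)) (k : ℕ) :
    ∃ m, y m ≤ M ∧ y (m + 1) ≤ -(6 * M + 2 + k) ∧ y (m + 2) ≤ 0 ∧
      y m + y (m + 1) + y (m + 2) ≤ -(2 * (6 * M + 2 + k) + 6 * M + 2) := by
  induction k with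
  | zero =>
    refine ⟨0, by linarith, by push_cast; show y 1 ≤ _; linarith, by show y 2 ≤ _; linarith, ?_⟩
    push_cast
    show y 0 + y 1 + y 2 ≤ _
    linarith
  | succ k ih =>
    obtain ⟨n, i1, i2, i3, i4⟩ := ih
    have hk : (0 : ℝ) ≤ k := Nat.cast_nonneg k
    obtain ⟨m, j1, j2, j3, j4⟩ := step M hM sp h1 h2 h3 h4 y hy n (6 * M + 2 + k)
      (by linarith) i1 i2 i3 i4
    refine ⟨m, j1, ?_, j3, ?_⟩
    · push_cast
      linarith
    · push_cast
      linarith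

/-- Every solution with small initial values is unbounded. -/
theorem unbounded (α : ℝ) (hα : 0 < α) (x : ℕ → ℝ) (hx : ∀ n, 0 < x n)
    (hr : ∀ n, x (n + 3) = (α + x (n + 2)) / x n)
    (i0 : x 0 ≤ Real.exp (-(6 * (|Real.log α| + Real.log (1 + α)) + 2)))
    (i1 : x 1 ≤ Real.exp (-(6 * (|Real.log α| + Real.log (1 + α)) + 2)))
    (i2 : x 2 ≤ Real.exp (-(6 * (|Real.log α| + Real.log (1 + α)) + 2))) :
    ¬ BddAbove (Set.range x) := by
  set M : ℝ := |Real.log α| + Real.log (1 + α) with hMdef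
  have hl : 0 ≤ Real.log (1 + α) := Real.log_nonneg (by linarith)
  have hM : 0 ≤ M := by positivity
  set sp : ℝ → ℝ := fun t => Real.log (α + Real.exp t) with hsp
  have h1 : ∀ t, t ≤ sp t := by
    intro t
    have : Real.log (Real.exp t) ≤ Real.log (α + Real.exp t) :=
      Real.log_le_log (Real.exp_pos t) (by linarith)
    rwa [Real.log_exp] at this
  have h2 : ∀ t, -M ≤ sp t := by
    intro t
    have h : Real.log α ≤ Real.log (α + Real.exp t) :=
      Real.log_le_log hα (by linarith [Real.exp_pos t])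
    have := neg_abs_le (Real.log α)
    show -M ≤ Real.log (α + Real.exp t)
    linarith
  have h3 : ∀ t, 0 ≤ t → sp t ≤ t + M := by
    intro t ht
    have h : Real.log (α + Real.exp t) ≤ Real.log ((1 + α) * Real.exp t) := by
      apply Real.log_le_log (by positivity)
      have : 1 ≤ Real.exp t := Real.one_le_exp ht
      nlinarith
    rw [Real.log_mul (by positivity) (Real.exp_pos t).ne', Real.log_exp] at h
    have := abs_nonneg (Real.log α)
    show Real.log (α + Real.exp t) ≤ t + M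
    linarith
  have h4 : ∀ t, t ≤ 0 → sp t ≤ M := by
    intro t ht
    have h : Real.log (α + Real.exp t) ≤ Real.log (1 + α) := by
      apply Real.log_le_log (by positivity)
      have : Real.exp t ≤ 1 := Real.exp_le_one_iff.2 ht
      linarith
    have := abs_nonneg (Real.log α)
    show Real.log (α + Real.exp t) ≤ M
    linarith
  set y : ℕ → ℝ := fun n => Real.log (x n) with hydef
  have hy : ∀ n, y (n + 3) = sp (y (n + 2)) - y n := by
    intro n
    show Real.log (x (n + 3)) = Real.log (α + Real.exp (Real.log (x (n + 2)))) - Real.log (x n)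
    rw [Real.exp_log (hx _), hr, Real.log_div (by have := hx (n + 2); positivity) (hx n).ne']
  have key : ∀ n, x n ≤ Real.exp (-(6 * M + 2)) → y n ≤ -(6 * M + 2) := by
    intro n hn
    have := Real.log_le_log (hx n) hn
    rwa [Real.log_exp] at this
  rintro ⟨C, hC⟩
  obtain ⟨k, hk⟩ := exists_nat_gt (Real.log C + M)
  obtain ⟨m, j1, j2, j3, j4⟩ := returns M hM sp h1 h2 h3 h4 y hy (key 0 i0) (key 1 i1) (key 2 i2) k
  have e1 : y (m + 4) = sp (y (m + 3)) - y (m + 1) := hy (m + 1)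
  have e2 := h2 (y (m + 3))
  have hb : y (m + 4) ≤ Real.log C := Real.log_le_log (hx _) (hC ⟨m + 4, rfl⟩)
  linarith

/-- The state `(x n, x (n + 1), x (n + 2))`. -/
noncomputable def st (α p q r : ℝ) : ℕ → ℝ × ℝ × ℝ
  | 0 => (p, q, r)
  | n + 1 => ((st α p q r n).2.1, (st α p q r n).2.2,
      (α + (st α p q r n).2.2) / (st α p q r n).1)

theorem exists_solution (α p q r : ℝ) (hα : 0 < α) (hp : 0 < p) (hq : 0 < q) (hr : 0 < r) :
    ∃ x : ℕ → ℝ, x 0 = p ∧ x 1 = q ∧ x 2 = r ∧ (∀ n, 0 < x n) ∧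
      ∀ n, x (n + 3) = (α + x (n + 2)) / x n := by
  have hpos : ∀ n, 0 < (st α p q r n).1 ∧ 0 < (st α p q r n).2.1 ∧ 0 < (st α p q r n).2.2 := by
    intro n
    induction n with
    | zero => exact ⟨hp, hq, hr⟩
    | succ n ih =>
      obtain ⟨k1, k2, k3⟩ := ih
      refine ⟨k2, k3, ?_⟩
      show 0 < (α + (st α p q r n).2.2) / (st α p q r n).1
      positivity
  exact ⟨fun n => (st α p q r n).1, rfl, rfl, rfl, fun n => (hpos n).1, fun n => rfl⟩

end Pool.Agent.N358.Rat3
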